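import Pool.Agent.H61.Hall4

open MeasureTheory ProbabilityTheory Set
open scoped ENNReal EuclideanGeometry

namespace Pool.Agent.Results.MP_92974c_pr.SquareBeatsDisc

/-- `F n S φ`: the probability that three independent uniform points of `S` span a triangle all of
whose angles are at most `φ`, that is, whose largest angle is at most `φ`. -/
noncomputable def F (n : ℕ) (S : Set (EuclideanSpace ℝ (Fin n))) (φ : ℝ) : ℝ≥0∞ :=
  ((volume[|S]).prod ((volume[|S]).prod (volume[|S])))
    {q | ∠ q.1 q.2.1 q.2.2 ≤ φ ∧ ∠ q.2.1 q.2.2 q.1 ≤ φ ∧ ∠ q.2.2 q.1 q.2.1 ≤ φ}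

open Pool.Agent.H61.Hall in
theorem transfer (S : Set (EuclideanSpace ℝ (Fin 2))) (hS : MeasurableSet S) (φ : ℝ) :
    F 2 S φ = ((volume[|Complex.orthonormalBasisOneI.repr ⁻¹' S]).prod
      ((volume[|Complex.orthonormalBasisOneI.repr ⁻¹' S]).prod
        (volume[|Complex.orthonormalBasisOneI.repr ⁻¹' S]))) (T φ) := by
  set e := Complex.orthonormalBasisOneI.repr with he
  have h0 : MeasurePreserving e volume volume := e.measurePreserving
  have h1 : MeasurePreserving e (volume[|e ⁻¹' S]) (volume[|S]) := by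
    unfold ProbabilityTheory.cond
    rw [h0.measure_preimage hS.nullMeasurableSet]
    exact (h0.restrict_preimage hS).smul_measure _
  have h3 := h1.prod (h1.prod h1)
  have hm : MeasurableSet {q : EuclideanSpace ℝ (Fin 2) × EuclideanSpace ℝ (Fin 2) ×
      EuclideanSpace ℝ (Fin 2) |
      ∠ q.1 q.2.1 q.2.2 ≤ φ ∧ ∠ q.2.1 q.2.2 q.1 ≤ φ ∧ ∠ q.2.2 q.1 q.2.1 ≤ φ} :=
    (measurableSet_le (mang measurable_fst measurable_snd.fst measurable_snd.snd)
      measurable_const).inter
    ((measurableSet_le (mang measurable_snd.fst measurable_snd.snd measurable_fst)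
      measurable_const).inter
    (measurableSet_le (mang measurable_snd.snd measurable_fst measurable_snd.fst)
      measurable_const))
  unfold F
  rw [← h3.measure_preimage hm.nullMeasurableSet]
  congr 1
  ext q
  have ha : ∀ x y z : ℂ, ∠ (e x) (e y) (e z) = ∠ x y z := by
    intro x y z
    unfold EuclideanGeometry.angle
    simp only [vsub_eq_sub, ← map_sub]
    exact e.toLinearIsometry.angle_map _ _
  simp only [mem_preimage, mem_ofPred_eq, Prod.map_fst, Prod.map_snd, ha, T]

end Pool.Agent.Results.MP_92974c_pr.SquareBeatsDisc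

open Pool.Agent.Results.MP_92974c_pr.SquareBeatsDisc Pool.Agent.H61.Hall in
theorem Pool.Agent.Results.MP_92974c_pr.SquareBeatsDisc.result :
    ∃ (S : Set (EuclideanSpace ℝ (Fin 2))) (φ : ℝ), S = {x | ∀ i, |x i| ≤ 1} ∧
      Convex ℝ S ∧ IsCompact S ∧ (interior S).Nonempty ∧
      F 2 (Metric.closedBall 0 1) φ < F 2 S φ := by
  have hc : IsClosed {x : EuclideanSpace ℝ (Fin 2) | ∀ i, |x i| ≤ 1} := by
    rw [ofPred_forall]
    exact isClosed_iInter fun i => isClosed_le (by fun_prop) continuous_const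
  have hn : ∀ (x : EuclideanSpace ℝ (Fin 2)) i, |x i| ≤ ‖x‖ := fun x i => by
    simpa using PiLp.norm_apply_le x i
  refine ⟨_, Real.arccos 0.499999, rfl, ?_, ?_, ?_, ?_⟩
  · intro x hx y hy a b ha hb hab i
    have := hx i
    have := hy i
    simp only [PiLp.add_apply, PiLp.smul_apply, smul_eq_mul]
    refine (abs_add_le _ _).trans ?_
    rw [abs_mul, abs_mul, abs_of_nonneg ha, abs_of_nonneg hb]
    nlinarith
  · refine Metric.isCompact_of_isClosed_isBounded hc
      ((Metric.isBounded_closedBall (x := 0) (r := 2)).subset fun x hx => ?_)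
    rw [mem_closedBall_zero_iff, EuclideanSpace.norm_eq, Fin.sum_univ_two]
    have h0 := hx 0
    have h1 := hx 1
    refine Real.sqrt_le_iff.2 ⟨by norm_num, ?_⟩
    simp only [Real.norm_eq_abs]
    nlinarith [abs_nonneg (x 0), abs_nonneg (x 1)]
  · refine ⟨0, mem_interior_iff_mem_nhds.2 (Filter.mem_of_superset
      (Metric.closedBall_mem_nhds 0 one_pos) fun x hx i => ?_)⟩
    exact (hn x i).trans (mem_closedBall_zero_iff.1 hx)
  · rw [transfer _ measurableSet_closedBall, transfer _ hc.measurableSet]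
    have e1 : Complex.orthonormalBasisOneI.repr ⁻¹' Metric.closedBall 0 1
        = Metric.closedBall (0 : ℂ) 1 := by
      ext z; simp
    have e2 : Complex.orthonormalBasisOneI.repr ⁻¹'
        {x : EuclideanSpace ℝ (Fin 2) | ∀ i, |x i| ≤ 1} = Sq 1 := by
      ext z; simp [Sq, Fin.forall_fin_two]
    rw [e1, e2]
    exact main
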